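import Pool.Agent.X168.BU.Sum

/-!
# `M # ℂP³` is symplectic for every closed symplectic six-manifold `M`

Let `(M, η)` be a closed symplectic manifold of dimension six and `q` a point of `M`. The oriented
connected sum `W = M # ℂP³` at `q`, where `ℂP³` carries its complex orientation, is a closed
six-manifold which has a symplectic form `Ω`, and `Ω` can be chosen to agree with `η` outside the
disc `a (ℂ³)` of `M` in which the sum is formed (so it induces the orientation of `W`).

All manifolds are modelled on the real vector space `V 3 = ℂ³` of dimension six. `a : ℂ³ → M` is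
a smoothly embedded disc with centre `q`, and the pull-back of `η` to the origin is the standard
linear symplectic form; in particular `a` preserves the orientations. `stdDisc 3` is the inverse
`v ↦ [v : 1]` of an affine chart, which preserves the complex orientation, and `conjDisc 3` is
the embedded disc `v ↦ [conj v : 1]`, which reverses it. The two connected sums, in which `a v` is
identified with `[v / |v|² : 1]` or with `[conj v / |v|² : 1]`, are the sums of `M` with `ℂP³` with
the reversed complex orientation and of `M` with `ℂP³` with its complex orientation. The same `W`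
is a connected sum of both kinds: complex conjugation reverses the orientation of `ℂP³`, and `W`
is the symplectic blow-up of `M` at `q`.
-/

set_option autoImplicit false

open Set
open scoped Manifold ContDiff

namespace Pool.Agent.Results.MP_46177c_gt.SumWithCP3

open Pool.Agent.X168.BU

theorem result (M : Type) [TopologicalSpace M] [ChartedSpace (V 3) M] (hM : IsClosedMfd 3 M)
    (η : Form 3 M 2) (hη : IsSymplectic η) (q : M) :
    ∃ (W : Type) (_ : TopologicalSpace W) (_ : ChartedSpace (V 3) W) (a : V 3 → M) (i : M → W)
      (j j' : CP 3 → W) (Ω : Form 3 W 2),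
      IsClosedMfd 3 W ∧ a 0 = q ∧ IsStandardAtZero a η ∧
      IsConnectedSum a (stdDisc 3) i j ∧ IsConnectedSum a (conjDisc 3) i j' ∧
      IsSymplectic Ω ∧ AgreeOutside a i η Ω := by
  obtain ⟨h1, h2, h3⟩ := hM
  obtain ⟨W, iT, iC, a, i, j, Ω, h1, h2, h3, h4, h5, h6, h7, h8⟩ :=
    exists_blow_sum (by norm_num) hη q
  exact ⟨W, iT, iC, a, i, j, fun p => j (conjCP p), Ω, ⟨h1, h2, h3 inferInstance⟩, h4, h5, h6,
    h6.conj, h7, agreeOutside_of h6.left h8⟩

end Pool.Agent.Results.MP_46177c_gt.SumWithCP3
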